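import Pool.Agent.H750R3.W.Z1

/-! Task Z of project H295-W2 (helper750): numerics of `ζ(s_k)`, `k < 4`. -/

set_option autoImplicit false

open Finset Complex

namespace Pool.Agent.H750R3.W

open Pool.Agent.H295R3.W

/-- real part of the main sum, scaled -/
def SR (k : ℕ) : ℚ := ∑ n ∈ Ico (1 : ℕ) 48, ((pwk k (v n)).1 : ℚ) / n

/-- imaginary part of the main sum, scaled -/
def SI (k : ℕ) : ℚ := ∑ n ∈ Ico (1 : ℕ) 48, ((pwk k (v n)).2 : ℚ) / n

/-- error of the main sum, scaled -/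
def SE (k : ℕ) : ℚ := ∑ n ∈ Ico (1 : ℕ) 48, (((2 * k + 1) * ve n + 12 * k : ℕ) : ℚ) / n

theorem ve_le (n : ℕ) : ve n ≤ 6012 := by
  unfold ve
  split <;> norm_num

theorem sum_bound (hW : TaskW) {k : ℕ} (hk : k < 4) :
    ‖(∑ n ∈ Ico (1 : ℕ) 48, (n : ℂ)⁻¹ * En n ^ (2 * k + 1)) * 100000000 -
      (((SR k : ℚ) : ℂ) + ((SI k : ℚ) : ℂ) * I)‖ ≤ ((SE k : ℚ) : ℝ) := by
  have h1 : ∀ n ∈ Ico (1 : ℕ) 48, Bd (En n ^ (2 * k + 1)) (pwk k (v n)) ((2 * k + 1) * ve n + 12 * k) := by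
    intro n hn
    rw [mem_Ico] at hn
    exact (hv hW n (mem_Icc.2 ⟨hn.1, by omega⟩)).pw (ve_le n) hk
  have e1 : (∑ n ∈ Ico (1 : ℕ) 48, (n : ℂ)⁻¹ * En n ^ (2 * k + 1)) * 100000000 -
      (((SR k : ℚ) : ℂ) + ((SI k : ℚ) : ℂ) * I) =
      ∑ n ∈ Ico (1 : ℕ) 48, (n : ℂ)⁻¹ * (En n ^ (2 * k + 1) * 100000000 -
        (((pwk k (v n)).1 : ℂ) + ((pwk k (v n)).2 : ℂ) * I)) := by
    unfold SR SI
    push_cast
    rw [sum_mul, sum_mul, ← sum_add_distrib, ← sum_sub_distrib]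
    apply sum_congr rfl
    intro n _
    ring
  rw [e1]
  refine (norm_sum_le _ _).trans ?_
  unfold SE
  push_cast
  apply sum_le_sum
  intro n hn
  rw [norm_mul, norm_inv, Complex.norm_natCast, div_eq_inv_mul]
  refine mul_le_mul_of_nonneg_left ?_ (by positivity)
  have := (h1 n hn).er
  push_cast at this
  exact this

/-- the coefficient of `48^{1-s}` -/
noncomputable def Cf (t : ℝ) : ℂ := ((1 / 96 + 1 / 27648 : ℝ) : ℂ) + ((t / 27648 - 1 / t : ℝ) : ℂ) * I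

theorem main_eq {k : ℕ} : (∑ n ∈ Ico (1 : ℕ) 48, (n : ℂ) ^ (-(sk k)) + ((48 : ℕ) : ℂ) ^ (1 - sk k) / (sk k - 1) +
    ((48 : ℕ) : ℂ) ^ (-(sk k)) / 2 + sk k / 12 * ((48 : ℕ) : ℂ) ^ (-(sk k) - 1)) =
    (∑ n ∈ Ico (1 : ℕ) 48, (n : ℂ)⁻¹ * En n ^ (2 * k + 1)) + En 48 ^ (2 * k + 1) * Cf (om k) := by
  have hom : om k ≠ 0 := by
    unfold om
    have h2 : Real.log 2 ≠ 0 := (Real.log_pos one_lt_two).ne'
    have hp := Real.pi_ne_zero
    have : (2 * (k : ℝ) + 1) ≠ 0 := by positivity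
    positivity
  have homC : ((om k : ℝ) : ℂ) ≠ 0 := by exact_mod_cast hom
  have e1 : ∀ n ∈ Ico (1 : ℕ) 48, (n : ℂ) ^ (-(sk k)) = (n : ℂ)⁻¹ * En n ^ (2 * k + 1) := by
    intro n hn
    rw [mem_Ico] at hn
    have h := cpow_En (n := n) (by omega) k (-1)
    rw [Complex.cpow_neg_one] at h
    rw [← h]
    congr 1
    unfold sk
    ring
  have e2 : ((48 : ℕ) : ℂ) ^ (1 - sk k) = En 48 ^ (2 * k + 1) := by
    have h := cpow_En (n := 48) (by norm_num) k 0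
    rw [Complex.cpow_zero, one_mul] at h
    rw [← h]
    congr 1
    unfold sk
    ring
  have e3 : ((48 : ℕ) : ℂ) ^ (-(sk k)) = 48⁻¹ * En 48 ^ (2 * k + 1) := by
    have h := cpow_En (n := 48) (by norm_num) k (-1)
    rw [Complex.cpow_neg_one] at h
    have h' : ((48 : ℕ) : ℂ)⁻¹ = 48⁻¹ := by norm_num
    rw [h'] at h
    rw [← h]
    congr 1
    unfold sk
    ring
  have e4 : ((48 : ℕ) : ℂ) ^ (-(sk k) - 1) = 2304⁻¹ * En 48 ^ (2 * k + 1) := by
    have h := cpow_En (n := 48) (by norm_num) k (-2)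
    have h' : ((48 : ℕ) : ℂ) ^ (-2 : ℂ) = 2304⁻¹ := by
      rw [Complex.cpow_neg]
      norm_num
    rw [h'] at h
    rw [← h]
    congr 1
    unfold sk
    ring
  rw [sum_congr rfl e1, e2, e3, e4]
  unfold sk Cf
  have hI : (I : ℂ) * I = -1 := Complex.I_mul_I
  have e5 : En 48 ^ (2 * k + 1) / (1 + ((om k : ℝ) : ℂ) * I - 1) =
      En 48 ^ (2 * k + 1) * (-(1 / ((om k : ℝ) : ℂ)) * I) := by
    have hI0 : (I : ℂ) ≠ 0 := Complex.I_ne_zero
    have : (1 + ((om k : ℝ) : ℂ) * I - 1) = ((om k : ℝ) : ℂ) * I := by ring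
    rw [this]
    field_simp
    linear_combination (En 48 ^ (2 * k + 1)) * hI
  rw [e5]
  push_cast
  ring

theorem om_bounds (k : ℕ) : (2 * (k : ℝ) + 1) * 4.532359 ≤ om k ∧ om k ≤ (2 * (k : ℝ) + 1) * 4.532361 := by
  have h1 := Real.pi_gt_d6
  have h2 := Real.pi_lt_d6
  have h3 := Real.log_two_gt_d9
  have h4 := Real.log_two_lt_d9
  have hl : 0 < Real.log 2 := Real.log_pos one_lt_two
  have hk : (0 : ℝ) < 2 * (k : ℝ) + 1 := by positivity
  have a : 4.532359 ≤ Real.pi / Real.log 2 := by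
    rw [le_div_iff₀ hl]
    nlinarith
  have b : Real.pi / Real.log 2 ≤ 4.532361 := by
    rw [div_le_iff₀ hl]
    nlinarith
  have e : om k = (2 * (k : ℝ) + 1) * (Real.pi / Real.log 2) := by
    unfold om
    ring
  rw [e]
  exact ⟨mul_le_mul_of_nonneg_left a hk.le, mul_le_mul_of_nonneg_left b hk.le⟩

/-- imaginary part of the coefficient -/
def ci : ℕ → ℚ
  | 0 => -220472 / 1000000
  | 1 => -73053 / 1000000
  | 2 => -43307 / 1000000
  | _ => -30372 / 1000000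

theorem ci_bound {k : ℕ} (hk : k < 4) : |om k / 27648 - 1 / om k - (ci k : ℝ)| ≤ 1 / 100000 := by
  obtain ⟨h1, h2⟩ := om_bounds k
  have hpos : 0 < om k := by
    have : (0 : ℝ) ≤ k := Nat.cast_nonneg k
    nlinarith
  have key : ∀ lo hi : ℝ, 0 < lo → lo ≤ om k → om k ≤ hi →
      1 / hi ≤ 1 / om k ∧ 1 / om k ≤ 1 / lo := by
    intro lo hi hlo ha hb
    exact ⟨one_div_le_one_div_of_le hpos hb, one_div_le_one_div_of_le hlo ha⟩
  interval_cases k
  · norm_num at h1 h2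
    obtain ⟨a, b⟩ := key _ _ (by norm_num) h1 h2
    norm_num [ci] at a b ⊢
    rw [abs_le]
    constructor <;> linarith
  · norm_num at h1 h2
    obtain ⟨a, b⟩ := key _ _ (by norm_num) h1 h2
    norm_num [ci] at a b ⊢
    rw [abs_le]
    constructor <;> linarith
  · norm_num at h1 h2
    obtain ⟨a, b⟩ := key _ _ (by norm_num) h1 h2
    norm_num [ci] at a b ⊢
    rw [abs_le]
    constructor <;> linarith
  · norm_num at h1 h2
    obtain ⟨a, b⟩ := key _ _ (by norm_num) h1 h2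
    norm_num [ci] at a b ⊢
    rw [abs_le]
    constructor <;> linarith

/-- rational values of `Zt` -/
def zr : ℕ → ℚ
  | 0 => 7188 / 10000
  | 1 => 4019 / 10000
  | 2 => 10559 / 10000
  | _ => 7259 / 10000

def zi : ℕ → ℚ
  | 0 => 1247 / 10000
  | 1 => -2211 / 10000
  | 2 => 2209 / 10000
  | _ => 78 / 10000

theorem Zt_eq {k : ℕ} (hk : k < 4) : Zt k = ((zr k : ℚ) : ℂ) + ((zi k : ℚ) : ℂ) * I := by
  interval_cases k <;> (apply Complex.ext <;> norm_num [Zt, zr, zi])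

/-- real part of the coefficient -/
def cr : ℚ := 1 / 96 + 1 / 27648

theorem numRe : ∀ k < 4, |SR k + ((pwk k (v 48)).1 * cr - (pwk k (v 48)).2 * ci k) -
    100000000 * zr k| ≤ 6000 := by decide +kernel

theorem numIm : ∀ k < 4, |SI k + ((pwk k (v 48)).1 * ci k + (pwk k (v 48)).2 * cr) -
    100000000 * zi k| ≤ 6000 := by decide +kernel

theorem numE : ∀ k < 4, SE k ≤ 44000 := by decide +kernel

theorem norm_Cf {k : ℕ} (hk : k < 4) : ‖Cf (om k)‖ ≤ 1 / 4 := by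
  unfold Cf
  refine (norm_le_abs_add _ _).trans ?_
  have h := ci_bound hk
  have hc : |(ci k : ℝ)| ≤ 220472 / 1000000 := by
    interval_cases k <;> norm_num [ci, abs_le]
  have h3 : |om k / 27648 - 1 / om k| ≤ |om k / 27648 - 1 / om k - (ci k : ℝ)| + |(ci k : ℝ)| := by
    have := abs_add_le (om k / 27648 - 1 / om k - (ci k : ℝ)) (ci k : ℝ)
    simpa using this
  have h4 : |(1 / 96 + 1 / 27648 : ℝ)| ≤ 11 / 1000 := by
    rw [abs_le]; constructor <;> norm_num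
  linarith

theorem Cf_sub {k : ℕ} (hk : k < 4) :
    ‖Cf (om k) - (((cr : ℚ) : ℂ) + ((ci k : ℚ) : ℂ) * I)‖ ≤ 1 / 100000 := by
  have e : Cf (om k) - (((cr : ℚ) : ℂ) + ((ci k : ℚ) : ℂ) * I) =
      ((om k / 27648 - 1 / om k - (ci k : ℝ) : ℝ) : ℂ) * I := by
    unfold Cf cr
    push_cast
    ring
  rw [e, norm_mul, Complex.norm_I, mul_one, Complex.norm_real, Real.norm_eq_abs]
  exact ci_bound hk

theorem main_bound (hW : TaskW) {k : ℕ} (hk : k < 4) :
    ‖(∑ n ∈ Ico (1 : ℕ) 48, (n : ℂ)⁻¹ * En n ^ (2 * k + 1)) + En 48 ^ (2 * k + 1) * Cf (om k) - Zt k‖ ≤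
      61000 / 100000000 := by
  have hs := sum_bound hW hk
  have hu := (hv hW 48 (by simp)).pw (ve_le 48) hk
  have hE := numE k hk
  have hR := numRe k hk
  have hI := numIm k hk
  set M' : ℂ := ∑ n ∈ Ico (1 : ℕ) 48, (n : ℂ)⁻¹ * En n ^ (2 * k + 1) with hM
  set u : ℂ := En 48 ^ (2 * k + 1) with hudef
  set a : ℤ := (pwk k (v 48)).1 with ha
  set b : ℤ := (pwk k (v 48)).2 with hb
  have heu : (((2 * k + 1) * ve 48 + 12 * k : ℕ) : ℝ) ≤ 14036 := by
    have : (2 * k + 1) * ve 48 + 12 * k ≤ 14036 := by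
      have e : ve 48 = 2000 := rfl
      rw [e]; omega
    exact_mod_cast this
  have hu1 : ‖u * 100000000 - ((a : ℂ) + (b : ℂ) * I)‖ ≤ 14036 := hu.er.trans heu
  have hab : ‖(a : ℂ) + (b : ℂ) * I‖ ≤ 100000000 + 14036 := by
    have e : (a : ℂ) + (b : ℂ) * I = u * 100000000 - (u * 100000000 - ((a : ℂ) + (b : ℂ) * I)) := by ring
    rw [e]
    refine (norm_sub_le _ _).trans ?_
    have e2 : ‖u * 100000000‖ = 100000000 := by
      rw [norm_mul, hu.nm, one_mul]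
      simp
    rw [e2]
    linarith
  have hid : (M' + u * Cf (om k) - Zt k) * 100000000 =
      (M' * 100000000 - (((SR k : ℚ) : ℂ) + ((SI k : ℚ) : ℂ) * I)) +
      (u * 100000000 - ((a : ℂ) + (b : ℂ) * I)) * Cf (om k) +
      ((a : ℂ) + (b : ℂ) * I) * (Cf (om k) - (((cr : ℚ) : ℂ) + ((ci k : ℚ) : ℂ) * I)) +
      ((((SR k + (a * cr - b * ci k) - 100000000 * zr k : ℚ) : ℝ) : ℂ) +
        (((SI k + (a * ci k + b * cr) - 100000000 * zi k : ℚ) : ℝ) : ℂ) * I) := by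
    rw [Zt_eq hk]
    push_cast
    linear_combination ((b : ℂ) * ((ci k : ℚ) : ℂ)) * Complex.I_mul_I
  have hlast : ‖((((SR k + (a * cr - b * ci k) - 100000000 * zr k : ℚ) : ℝ) : ℂ) +
        (((SI k + (a * ci k + b * cr) - 100000000 * zi k : ℚ) : ℝ) : ℂ) * I)‖ ≤ 12000 := by
    refine (norm_le_abs_add _ _).trans ?_
    have h1 : |((SR k + (a * cr - b * ci k) - 100000000 * zr k : ℚ) : ℝ)| ≤ 6000 := by
      rw [← Rat.cast_abs]
      exact_mod_cast hR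
    have h2 : |((SI k + (a * ci k + b * cr) - 100000000 * zi k : ℚ) : ℝ)| ≤ 6000 := by
      rw [← Rat.cast_abs]
      exact_mod_cast hI
    linarith
  have hE' : ((SE k : ℚ) : ℝ) ≤ 44000 := by exact_mod_cast hE
  have hn : ‖M' + u * Cf (om k) - Zt k‖ * 100000000 ≤ 44000 + 14036 * (1 / 4) +
      (100000000 + 14036) * (1 / 100000) + 12000 := by
    have e0 : ‖M' + u * Cf (om k) - Zt k‖ * 100000000 = ‖(M' + u * Cf (om k) - Zt k) * 100000000‖ := by
      rw [norm_mul]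
      simp
    rw [e0, hid]
    refine (norm_add_le _ _).trans (add_le_add ((norm_add_le _ _).trans (add_le_add
      ((norm_add_le _ _).trans (add_le_add ?_ ?_)) ?_)) hlast)
    · exact hs.trans hE'
    · rw [norm_mul]
      exact mul_le_mul hu1 (norm_Cf hk) (norm_nonneg _) (by norm_num)
    · rw [norm_mul]
      exact mul_le_mul hab (Cf_sub hk) (norm_nonneg _) (by norm_num)
  have : (44000 : ℝ) + 14036 * (1 / 4) + (100000000 + 14036) * (1 / 100000) + 12000 ≤ 61000 := by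
    norm_num
  linarith

theorem taskZ : TaskZ := by
  intro hEM hW k hk
  obtain ⟨ho1, ho2⟩ := om_bounds k
  have hk3 : (k : ℝ) ≤ 3 := by
    have : k ≤ 3 := by omega
    exact_mod_cast this
  have hk0 : (0 : ℝ) ≤ k := Nat.cast_nonneg k
  have hpos : 0 < om k := by nlinarith
  have hom : om k ≤ 31.73 := by nlinarith
  have h := hEM 48 (om k) (by norm_num) hpos.ne' (sk k) rfl
  rw [main_eq] at h
  have hm := main_bound hW hk
  have n0 : ‖sk k‖ ≤ 1 + 31.73 := by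
    unfold sk
    refine (norm_add_le _ _).trans ?_
    rw [norm_mul, Complex.norm_I, mul_one, Complex.norm_real, Real.norm_eq_abs, abs_of_pos hpos,
      norm_one]
    linarith
  have n1 : ‖sk k + 1‖ ≤ 2 + 31.73 := by
    refine (norm_add_le _ _).trans ?_
    rw [norm_one]
    linarith
  have n2 : ‖sk k + 2‖ ≤ 3 + 31.73 := by
    refine (norm_add_le _ _).trans ?_
    have : ‖(2 : ℂ)‖ = 2 := by simp
    rw [this]
    linarith
  have hprod : ‖sk k‖ * ‖sk k + 1‖ * ‖sk k + 2‖ ≤ (1 + 31.73) * (2 + 31.73) * (3 + 31.73) :=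
    mul_le_mul (mul_le_mul n0 n1 (norm_nonneg _) (by norm_num)) n2 (norm_nonneg _) (by norm_num)
  have hEMb : ‖sk k‖ * ‖sk k + 1‖ * ‖sk k + 2‖ / (120 * ((48 : ℕ) : ℝ) ^ 3) ≤ 289 / 100000 := by
    rw [div_le_iff₀ (by positivity)]
    refine hprod.trans ?_
    norm_num
  have e : riemannZeta (sk k) - Zt k =
      (riemannZeta (sk k) - (∑ n ∈ Ico (1 : ℕ) 48, (n : ℂ)⁻¹ * En n ^ (2 * k + 1) +
        En 48 ^ (2 * k + 1) * Cf (om k))) +
      ((∑ n ∈ Ico (1 : ℕ) 48, (n : ℂ)⁻¹ * En n ^ (2 * k + 1)) +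
        En 48 ^ (2 * k + 1) * Cf (om k) - Zt k) := by ring
  rw [e]
  refine (norm_add_le _ _).trans ?_
  linarith

end Pool.Agent.H750R3.W
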