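import Pool.Agent.H295R3.W.StmtsB

/-! Task Z of project H295-W2 (helper750): numerics of `ζ(s_k)`, `k < 4`. -/

set_option autoImplicit false

open Finset Complex

namespace Pool.Agent.H750R3.W

open Pool.Agent.H295R3.W

/-- `exp(-i π log n / log 2)` -/
noncomputable def En (n : ℕ) : ℂ :=
  Complex.exp (-((Real.pi * Real.log n / Real.log 2 : ℝ) : ℂ) * I)

theorem norm_En (n : ℕ) : ‖En n‖ = 1 := by
  unfold En
  rw [← Complex.ofReal_neg]
  exact Complex.norm_exp_ofReal_mul_I _

theorem En_one : En 1 = 1 := by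
  unfold En
  simp

theorem En_two : En 2 = -1 := by
  unfold En
  have h : Real.log ((2 : ℕ) : ℝ) = Real.log 2 := by norm_num
  have h2 : Real.log 2 ≠ 0 := (Real.log_pos one_lt_two).ne'
  rw [h, mul_div_assoc, div_self h2, mul_one, neg_mul, Complex.exp_neg, Complex.exp_pi_mul_I]
  norm_num

theorem En_mul {a b : ℕ} (ha : 0 < a) (hb : 0 < b) : En (a * b) = En a * En b := by
  unfold En
  rw [← Complex.exp_add]
  congr 1
  have h : Real.log ((a * b : ℕ) : ℝ) = Real.log a + Real.log b := by
    push_cast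
    exact Real.log_mul (by positivity) (by positivity)
  rw [h]
  push_cast
  ring

theorem cpow_En {n : ℕ} (hn : 0 < n) (k : ℕ) (c : ℂ) :
    (n : ℂ) ^ (c - (om k : ℂ) * I) = (n : ℂ) ^ c * En n ^ (2 * k + 1) := by
  have hn0 : (n : ℂ) ≠ 0 := by exact_mod_cast hn.ne'
  unfold En
  rw [Complex.cpow_def_of_ne_zero hn0, Complex.cpow_def_of_ne_zero hn0, ← Complex.exp_nat_mul,
    ← Complex.exp_add]
  congr 1
  rw [← Complex.natCast_log]
  unfold om
  push_cast
  ring

/-- multiplication of scaled approximations -/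
def mulB (a b : ℤ × ℤ) : ℤ × ℤ :=
  ((a.1 * b.1 - a.2 * b.2) / 100000000, (a.1 * b.2 + a.2 * b.1) / 100000000)

/-- `a / 10^8` approximates the unimodular number `z` up to `e / 10^8` -/
structure Bd (z : ℂ) (a : ℤ × ℤ) (e : ℕ) : Prop where
  nm : ‖z‖ = 1
  er : ‖z * 100000000 - ((a.1 : ℂ) + (a.2 : ℂ) * I)‖ ≤ e

theorem norm_le_abs_add (x y : ℝ) : ‖(x : ℂ) + (y : ℂ) * I‖ ≤ |x| + |y| := by
  refine (norm_add_le _ _).trans ?_
  rw [norm_mul, Complex.norm_I, mul_one, Complex.norm_real, Complex.norm_real, Real.norm_eq_abs,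
    Real.norm_eq_abs]

theorem Bd.mul {z w : ℂ} {a b : ℤ × ℤ} {e f : ℕ} (h1 : Bd z a e) (h2 : Bd w b f)
    (hef : e * f ≤ 400000000) : Bd (z * w) (mulB a b) (e + f + 6) := by
  refine ⟨by rw [norm_mul, h1.nm, h2.nm, mul_one], ?_⟩
  set A : ℂ := (a.1 : ℂ) + (a.2 : ℂ) * I with hA
  set B : ℂ := (b.1 : ℂ) + (b.2 : ℂ) * I with hB
  have hI : (I : ℂ) * I = -1 := Complex.I_mul_I
  -- the rounding error
  set p : ℤ := a.1 * b.1 - a.2 * b.2 with hp
  set q : ℤ := a.1 * b.2 + a.2 * b.1 with hq
  have hAB : A * B = (p : ℂ) + (q : ℂ) * I := by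
    rw [hA, hB, hp, hq]
    push_cast
    linear_combination ((a.2 : ℂ) * (b.2 : ℂ)) * hI
  have hpd : (p : ℂ) = 100000000 * ((p / 100000000 : ℤ) : ℂ) + ((p % 100000000 : ℤ) : ℂ) := by
    have := Int.mul_ediv_add_emod p 100000000
    exact_mod_cast this.symm
  have hqd : (q : ℂ) = 100000000 * ((q / 100000000 : ℤ) : ℂ) + ((q % 100000000 : ℤ) : ℂ) := by
    have := Int.mul_ediv_add_emod q 100000000
    exact_mod_cast this.symm
  have hp0 := Int.emod_nonneg p (show (100000000 : ℤ) ≠ 0 by norm_num)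
  have hp1 := Int.emod_lt_of_pos p (show (0 : ℤ) < 100000000 by norm_num)
  have hq0 := Int.emod_nonneg q (show (100000000 : ℤ) ≠ 0 by norm_num)
  have hq1 := Int.emod_lt_of_pos q (show (0 : ℤ) < 100000000 by norm_num)
  have hround : ‖((p % 100000000 : ℤ) : ℂ) + ((q % 100000000 : ℤ) : ℂ) * I‖ ≤ 200000000 := by
    have h := norm_le_abs_add ((p % 100000000 : ℤ) : ℝ) ((q % 100000000 : ℤ) : ℝ)
    have e1 : |((p % 100000000 : ℤ) : ℝ)| ≤ 100000000 := by
      rw [abs_le]
      constructor
      · have : (0 : ℝ) ≤ ((p % 100000000 : ℤ) : ℝ) := by exact_mod_cast hp0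
        linarith
      · exact_mod_cast hp1.le
    have e2 : |((q % 100000000 : ℤ) : ℝ)| ≤ 100000000 := by
      rw [abs_le]
      constructor
      · have : (0 : ℝ) ≤ ((q % 100000000 : ℤ) : ℝ) := by exact_mod_cast hq0
        linarith
      · exact_mod_cast hq1.le
    have h' : ‖((p % 100000000 : ℤ) : ℂ) + ((q % 100000000 : ℤ) : ℂ) * I‖ ≤
        |((p % 100000000 : ℤ) : ℝ)| + |((q % 100000000 : ℤ) : ℝ)| := by
      simpa using h
    linarith
  have hid : (z * w * 100000000 - (((mulB a b).1 : ℂ) + ((mulB a b).2 : ℂ) * I)) * 100000000 =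
      (z * 100000000) * (w * 100000000 - B) + (z * 100000000 - A) * B +
        (((p % 100000000 : ℤ) : ℂ) + ((q % 100000000 : ℤ) : ℂ) * I) := by
    have e1 : ((mulB a b).1 : ℂ) = ((p / 100000000 : ℤ) : ℂ) := rfl
    have e2 : ((mulB a b).2 : ℂ) = ((q / 100000000 : ℤ) : ℂ) := rfl
    rw [e1, e2]
    linear_combination hAB + hpd + I * hqd
  have hB' : ‖B‖ ≤ 100000000 + f := by
    have e1 : B = w * 100000000 - (w * 100000000 - B) := by ring
    rw [e1]
    refine (norm_sub_le _ _).trans ?_
    have e2 : ‖w * 100000000‖ = 100000000 := by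
      rw [norm_mul, h2.nm, one_mul]
      simp
    rw [e2]
    have := h2.er
    linarith
  have hz : ‖z * 100000000‖ = 100000000 := by
    rw [norm_mul, h1.nm, one_mul]
    simp
  have hn : ‖(z * w * 100000000 - (((mulB a b).1 : ℂ) + ((mulB a b).2 : ℂ) * I))‖ * 100000000 ≤
      100000000 * f + e * (100000000 + f) + 200000000 := by
    have e0 : ‖(z * w * 100000000 - (((mulB a b).1 : ℂ) + ((mulB a b).2 : ℂ) * I))‖ * 100000000 =
        ‖(z * w * 100000000 - (((mulB a b).1 : ℂ) + ((mulB a b).2 : ℂ) * I)) * 100000000‖ := by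
      rw [norm_mul]
      simp
    rw [e0, hid]
    refine (norm_add_le _ _).trans (add_le_add ((norm_add_le _ _).trans (add_le_add ?_ ?_)) hround)
    · rw [norm_mul, hz]
      exact mul_le_mul_of_nonneg_left h2.er (by norm_num)
    · rw [norm_mul]
      exact mul_le_mul h1.er hB' (norm_nonneg _) (Nat.cast_nonneg _)
  have hef' : (e : ℝ) * f ≤ 400000000 := by exact_mod_cast hef
  push_cast
  nlinarith

theorem Bd.neg {z : ℂ} {a : ℤ × ℤ} {e : ℕ} (h : Bd z a e) : Bd (-z) (-a.1, -a.2) e := by
  refine ⟨by rw [norm_neg, h.nm], ?_⟩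
  have : -z * 100000000 - (((-a.1 : ℤ) : ℂ) + ((-a.2 : ℤ) : ℂ) * I) =
      -(z * 100000000 - ((a.1 : ℂ) + (a.2 : ℂ) * I)) := by
    push_cast
    ring
  rw [this, norm_neg]
  exact h.er

/-- approximations of `En n ^ (2 k + 1)` -/
def pwk (k : ℕ) (a : ℤ × ℤ) : ℤ × ℤ :=
  match k with
  | 0 => a
  | 1 => mulB (mulB a a) a
  | 2 => mulB (mulB (mulB a a) a) (mulB a a)
  | _ => mulB (mulB (mulB (mulB a a) a) (mulB a a)) (mulB a a)

theorem Bd.pw {z : ℂ} {a : ℤ × ℤ} {e : ℕ} (h : Bd z a e) (he : e ≤ 6012) {k : ℕ} (hk : k < 4) :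
    Bd (z ^ (2 * k + 1)) (pwk k a) ((2 * k + 1) * e + 12 * k) := by
  have h2 := h.mul h (by nlinarith)
  have h3 := h2.mul h (by nlinarith)
  have h5 := h3.mul h2 (by nlinarith)
  have h7 := h5.mul h2 (by nlinarith)
  have aux : ∀ {z z' : ℂ} {a : ℤ × ℤ} {e e' : ℕ}, Bd z a e → z = z' → e = e' → Bd z' a e' := by
    intro z z' a e e' h h1 h2
    rw [← h1, ← h2]; exact h
  interval_cases k
  · exact aux h (by ring) (by ring)
  · exact aux h3 (by ring) (by ring)
  · exact aux h5 (by ring) (by ring)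
  · exact aux h7 (by ring) (by ring)

/-- approximations of `En n`, scaled by `10^8` -/
def v : ℕ → ℤ × ℤ
  | 1 => (100000000, 0)
  | 2 => (-100000000, 0)
  | 3 => (26375900, 96458800)
  | 4 => (100000000, 0)
  | 5 => (53070300, -84755800)
  | 6 => (-26375900, -96458800)
  | 7 => (-82238100, -56893700)
  | 8 => (-100000000, 0)
  | 9 => (-86086120, 50883753)
  | 10 => (-53070300, 84755800)
  | 11 => (-12710500, 99188900)
  | 12 => (26375900, 96458800)
  | 13 => (58890200, 80820400)
  | 14 => (82238100, 56893700)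
  | 15 => (95752196, 28835869)
  | 16 => (100000000, 0)
  | 17 => (96248700, -27132800)
  | 18 => (86086120, -50883753)
  | 19 => (71169600, -70248800)
  | 20 => (53070300, -84755800)
  | 21 => (33187941, -94332110)
  | 22 => (12710500, -99188900)
  | 23 => (-7395400, -99726200)
  | 24 => (-26375900, -96458800)
  | 25 => (-43670889, -89960315)
  | 26 => (-58890200, -80820400)
  | 27 => (-71787847, -69616591)
  | 28 => (-82238100, -56893700)
  | 29 => (-90210800, -43151000)
  | 30 => (-95752196, -28835869)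
  | 31 => (-98966500, -14340000)
  | 32 => (-100000000, 0)
  | 33 => (-99028932, 13901569)
  | 34 => (-96248700, 27132800)
  | 35 => (-91864717, 39507902)
  | 36 => (-86086120, 50883753)
  | 37 => (-79120600, 61154900)
  | 38 => (-71169600, 70248800)
  | 39 => (-62425568, 78121888)
  | 40 => (-53070300, 84755800)
  | 41 => (-43272500, 90152600)
  | 42 => (-33187941, 94332110)
  | 43 => (-22958000, 97329000)
  | 44 => (-12710500, 99188900)
  | 45 => (-2559230, 99967139)
  | 46 => (7395400, 99726200)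
  | 47 => (17065700, 98533100)
  | 48 => (26375900, 96458800)
  | _ => (0, 0)

/-- errors -/
def ve : ℕ → ℕ
  | 1 => 0
  | 2 => 0
  | 3 => 2000
  | 4 => 0
  | 5 => 2000
  | 6 => 2000
  | 7 => 2000
  | 8 => 0
  | 9 => 4006
  | 10 => 2000
  | 11 => 2000
  | 12 => 2000
  | 13 => 2000
  | 14 => 2000
  | 15 => 4006
  | 16 => 0
  | 17 => 2000
  | 18 => 4006
  | 19 => 2000
  | 20 => 2000
  | 21 => 4006
  | 22 => 2000
  | 23 => 2000
  | 24 => 2000
  | 25 => 4006
  | 26 => 2000
  | 27 => 6012
  | 28 => 2000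
  | 29 => 2000
  | 30 => 4006
  | 31 => 2000
  | 32 => 0
  | 33 => 4006
  | 34 => 2000
  | 35 => 4006
  | 36 => 4006
  | 37 => 2000
  | 38 => 2000
  | 39 => 4006
  | 40 => 2000
  | 41 => 2000
  | 42 => 4006
  | 43 => 2000
  | 44 => 2000
  | 45 => 6012
  | 46 => 2000
  | 47 => 2000
  | 48 => 2000
  | _ => 0

theorem Bd.of {z : ℂ} {x y : ℚ} {a : ℤ × ℤ} (h : ‖z - ((x : ℂ) + (y : ℂ) * I)‖ ≤ 1 / 50000)
    (hz : ‖z‖ = 1) (h1 : x * 100000000 = a.1) (h2 : y * 100000000 = a.2) : Bd z a 2000 := by
  refine ⟨hz, ?_⟩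
  have e1 : (x : ℂ) * 100000000 = (a.1 : ℂ) := by exact_mod_cast congrArg (fun t : ℚ => (t : ℂ)) h1
  have e2 : (y : ℂ) * 100000000 = (a.2 : ℂ) := by exact_mod_cast congrArg (fun t : ℚ => (t : ℂ)) h2
  have : z * 100000000 - ((a.1 : ℂ) + (a.2 : ℂ) * I) = (z - ((x : ℂ) + (y : ℂ) * I)) * 100000000 := by
    rw [← e1, ← e2]; ring
  rw [this, norm_mul]
  have e3 : ‖(100000000 : ℂ)‖ = 100000000 := by simp
  rw [e3]
  have : ‖z - ((x : ℂ) + (y : ℂ) * I)‖ * 100000000 ≤ 1 / 50000 * 100000000 :=
    mul_le_mul_of_nonneg_right h (by norm_num)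
  refine this.trans ?_
  norm_num

theorem Bd.mul' {m n l : ℕ} (hm : 0 < m) (hn : 0 < n) (h1 : Bd (En m) (v m) (ve m))
    (h2 : Bd (En n) (v n) (ve n)) (hl : m * n = l) (hv : mulB (v m) (v n) = v l)
    (he : ve m + ve n + 6 = ve l) (hef : ve m * ve n ≤ 400000000) : Bd (En l) (v l) (ve l) := by
  rw [← hl, En_mul hm hn, hl, ← hv, ← he]
  exact h1.mul h2 hef

theorem Bd.two {n l : ℕ} (hn : 0 < n) (h2 : Bd (En n) (v n) (ve n)) (hl : 2 * n = l)
    (hv : (-(v n).1, -(v n).2) = v l) (he : ve n = ve l) : Bd (En l) (v l) (ve l) := by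
  rw [← hl, En_mul two_pos hn, En_two, neg_one_mul, hl, ← hv, ← he]
  exact h2.neg

theorem hv (hW : TaskW) : ∀ n ∈ Icc 1 48, Bd (En n) (v n) (ve n) := by
  have b1 : Bd (En 1) (v 1) (ve 1) := ⟨norm_En 1, by rw [En_one]; norm_num [v, ve]⟩
  have b3 : Bd (En 3) (v 3) (ve 3) := by
    have h := hW (3, 263759/1000000, 964588/1000000) (by simp [wtab])
    exact Bd.of h (norm_En _) (by norm_num [v]) (by norm_num [v])
  have b5 : Bd (En 5) (v 5) (ve 5) := by
    have h := hW (5, 530703/1000000, -847558/1000000) (by simp [wtab])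
    exact Bd.of h (norm_En _) (by norm_num [v]) (by norm_num [v])
  have b7 : Bd (En 7) (v 7) (ve 7) := by
    have h := hW (7, -822381/1000000, -568937/1000000) (by simp [wtab])
    exact Bd.of h (norm_En _) (by norm_num [v]) (by norm_num [v])
  have b11 : Bd (En 11) (v 11) (ve 11) := by
    have h := hW (11, -127105/1000000, 991889/1000000) (by simp [wtab])
    exact Bd.of h (norm_En _) (by norm_num [v]) (by norm_num [v])
  have b13 : Bd (En 13) (v 13) (ve 13) := by
    have h := hW (13, 588902/1000000, 808204/1000000) (by simp [wtab])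
    exact Bd.of h (norm_En _) (by norm_num [v]) (by norm_num [v])
  have b17 : Bd (En 17) (v 17) (ve 17) := by
    have h := hW (17, 962487/1000000, -271328/1000000) (by simp [wtab])
    exact Bd.of h (norm_En _) (by norm_num [v]) (by norm_num [v])
  have b19 : Bd (En 19) (v 19) (ve 19) := by
    have h := hW (19, 711696/1000000, -702488/1000000) (by simp [wtab])
    exact Bd.of h (norm_En _) (by norm_num [v]) (by norm_num [v])
  have b23 : Bd (En 23) (v 23) (ve 23) := by
    have h := hW (23, -73954/1000000, -997262/1000000) (by simp [wtab])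
    exact Bd.of h (norm_En _) (by norm_num [v]) (by norm_num [v])
  have b29 : Bd (En 29) (v 29) (ve 29) := by
    have h := hW (29, -902108/1000000, -431510/1000000) (by simp [wtab])
    exact Bd.of h (norm_En _) (by norm_num [v]) (by norm_num [v])
  have b31 : Bd (En 31) (v 31) (ve 31) := by
    have h := hW (31, -989665/1000000, -143400/1000000) (by simp [wtab])
    exact Bd.of h (norm_En _) (by norm_num [v]) (by norm_num [v])
  have b37 : Bd (En 37) (v 37) (ve 37) := by
    have h := hW (37, -791206/1000000, 611549/1000000) (by simp [wtab])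
    exact Bd.of h (norm_En _) (by norm_num [v]) (by norm_num [v])
  have b41 : Bd (En 41) (v 41) (ve 41) := by
    have h := hW (41, -432725/1000000, 901526/1000000) (by simp [wtab])
    exact Bd.of h (norm_En _) (by norm_num [v]) (by norm_num [v])
  have b43 : Bd (En 43) (v 43) (ve 43) := by
    have h := hW (43, -229580/1000000, 973290/1000000) (by simp [wtab])
    exact Bd.of h (norm_En _) (by norm_num [v]) (by norm_num [v])
  have b47 : Bd (En 47) (v 47) (ve 47) := by
    have h := hW (47, 170657/1000000, 985331/1000000) (by simp [wtab])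
    exact Bd.of h (norm_En _) (by norm_num [v]) (by norm_num [v])
  have b2 : Bd (En 2) (v 2) (ve 2) :=
    Bd.two (n := 1) (by norm_num) b1 (by norm_num) (by decide +kernel) (by decide +kernel)
  have b4 : Bd (En 4) (v 4) (ve 4) :=
    Bd.two (n := 2) (by norm_num) b2 (by norm_num) (by decide +kernel) (by decide +kernel)
  have b6 : Bd (En 6) (v 6) (ve 6) :=
    Bd.two (n := 3) (by norm_num) b3 (by norm_num) (by decide +kernel) (by decide +kernel)
  have b8 : Bd (En 8) (v 8) (ve 8) :=
    Bd.two (n := 4) (by norm_num) b4 (by norm_num) (by decide +kernel) (by decide +kernel)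
  have b9 : Bd (En 9) (v 9) (ve 9) :=
    Bd.mul' (m := 3) (n := 3) (by norm_num) (by norm_num) b3 b3 (by norm_num)
      (by decide +kernel) (by decide +kernel) (by decide +kernel)
  have b10 : Bd (En 10) (v 10) (ve 10) :=
    Bd.two (n := 5) (by norm_num) b5 (by norm_num) (by decide +kernel) (by decide +kernel)
  have b12 : Bd (En 12) (v 12) (ve 12) :=
    Bd.two (n := 6) (by norm_num) b6 (by norm_num) (by decide +kernel) (by decide +kernel)
  have b14 : Bd (En 14) (v 14) (ve 14) :=
    Bd.two (n := 7) (by norm_num) b7 (by norm_num) (by decide +kernel) (by decide +kernel)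
  have b15 : Bd (En 15) (v 15) (ve 15) :=
    Bd.mul' (m := 3) (n := 5) (by norm_num) (by norm_num) b3 b5 (by norm_num)
      (by decide +kernel) (by decide +kernel) (by decide +kernel)
  have b16 : Bd (En 16) (v 16) (ve 16) :=
    Bd.two (n := 8) (by norm_num) b8 (by norm_num) (by decide +kernel) (by decide +kernel)
  have b18 : Bd (En 18) (v 18) (ve 18) :=
    Bd.two (n := 9) (by norm_num) b9 (by norm_num) (by decide +kernel) (by decide +kernel)
  have b20 : Bd (En 20) (v 20) (ve 20) :=
    Bd.two (n := 10) (by norm_num) b10 (by norm_num) (by decide +kernel) (by decide +kernel)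
  have b21 : Bd (En 21) (v 21) (ve 21) :=
    Bd.mul' (m := 3) (n := 7) (by norm_num) (by norm_num) b3 b7 (by norm_num)
      (by decide +kernel) (by decide +kernel) (by decide +kernel)
  have b22 : Bd (En 22) (v 22) (ve 22) :=
    Bd.two (n := 11) (by norm_num) b11 (by norm_num) (by decide +kernel) (by decide +kernel)
  have b24 : Bd (En 24) (v 24) (ve 24) :=
    Bd.two (n := 12) (by norm_num) b12 (by norm_num) (by decide +kernel) (by decide +kernel)
  have b25 : Bd (En 25) (v 25) (ve 25) :=
    Bd.mul' (m := 5) (n := 5) (by norm_num) (by norm_num) b5 b5 (by norm_num)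
      (by decide +kernel) (by decide +kernel) (by decide +kernel)
  have b26 : Bd (En 26) (v 26) (ve 26) :=
    Bd.two (n := 13) (by norm_num) b13 (by norm_num) (by decide +kernel) (by decide +kernel)
  have b27 : Bd (En 27) (v 27) (ve 27) :=
    Bd.mul' (m := 3) (n := 9) (by norm_num) (by norm_num) b3 b9 (by norm_num)
      (by decide +kernel) (by decide +kernel) (by decide +kernel)
  have b28 : Bd (En 28) (v 28) (ve 28) :=
    Bd.two (n := 14) (by norm_num) b14 (by norm_num) (by decide +kernel) (by decide +kernel)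
  have b30 : Bd (En 30) (v 30) (ve 30) :=
    Bd.two (n := 15) (by norm_num) b15 (by norm_num) (by decide +kernel) (by decide +kernel)
  have b32 : Bd (En 32) (v 32) (ve 32) :=
    Bd.two (n := 16) (by norm_num) b16 (by norm_num) (by decide +kernel) (by decide +kernel)
  have b33 : Bd (En 33) (v 33) (ve 33) :=
    Bd.mul' (m := 3) (n := 11) (by norm_num) (by norm_num) b3 b11 (by norm_num)
      (by decide +kernel) (by decide +kernel) (by decide +kernel)
  have b34 : Bd (En 34) (v 34) (ve 34) :=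
    Bd.two (n := 17) (by norm_num) b17 (by norm_num) (by decide +kernel) (by decide +kernel)
  have b35 : Bd (En 35) (v 35) (ve 35) :=
    Bd.mul' (m := 5) (n := 7) (by norm_num) (by norm_num) b5 b7 (by norm_num)
      (by decide +kernel) (by decide +kernel) (by decide +kernel)
  have b36 : Bd (En 36) (v 36) (ve 36) :=
    Bd.two (n := 18) (by norm_num) b18 (by norm_num) (by decide +kernel) (by decide +kernel)
  have b38 : Bd (En 38) (v 38) (ve 38) :=
    Bd.two (n := 19) (by norm_num) b19 (by norm_num) (by decide +kernel) (by decide +kernel)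
  have b39 : Bd (En 39) (v 39) (ve 39) :=
    Bd.mul' (m := 3) (n := 13) (by norm_num) (by norm_num) b3 b13 (by norm_num)
      (by decide +kernel) (by decide +kernel) (by decide +kernel)
  have b40 : Bd (En 40) (v 40) (ve 40) :=
    Bd.two (n := 20) (by norm_num) b20 (by norm_num) (by decide +kernel) (by decide +kernel)
  have b42 : Bd (En 42) (v 42) (ve 42) :=
    Bd.two (n := 21) (by norm_num) b21 (by norm_num) (by decide +kernel) (by decide +kernel)
  have b44 : Bd (En 44) (v 44) (ve 44) :=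
    Bd.two (n := 22) (by norm_num) b22 (by norm_num) (by decide +kernel) (by decide +kernel)
  have b45 : Bd (En 45) (v 45) (ve 45) :=
    Bd.mul' (m := 3) (n := 15) (by norm_num) (by norm_num) b3 b15 (by norm_num)
      (by decide +kernel) (by decide +kernel) (by decide +kernel)
  have b46 : Bd (En 46) (v 46) (ve 46) :=
    Bd.two (n := 23) (by norm_num) b23 (by norm_num) (by decide +kernel) (by decide +kernel)
  have b48 : Bd (En 48) (v 48) (ve 48) :=
    Bd.two (n := 24) (by norm_num) b24 (by norm_num) (by decide +kernel) (by decide +kernel)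
  intro n hn
  rw [mem_Icc] at hn
  obtain ⟨h1, h2⟩ := hn
  interval_cases n
  · exact b1
  · exact b2
  · exact b3
  · exact b4
  · exact b5
  · exact b6
  · exact b7
  · exact b8
  · exact b9
  · exact b10
  · exact b11
  · exact b12
  · exact b13
  · exact b14
  · exact b15
  · exact b16
  · exact b17
  · exact b18
  · exact b19
  · exact b20
  · exact b21
  · exact b22
  · exact b23
  · exact b24
  · exact b25
  · exact b26
  · exact b27
  · exact b28
  · exact b29
  · exact b30
  · exact b31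
  · exact b32
  · exact b33
  · exact b34
  · exact b35
  · exact b36
  · exact b37
  · exact b38
  · exact b39
  · exact b40
  · exact b41
  · exact b42
  · exact b43
  · exact b44
  · exact b45
  · exact b46
  · exact b47
  · exact b48

end Pool.Agent.H750R3.W
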